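import Pool.Agent.H.MP_65c995_pr.C

set_option autoImplicit false

namespace Pool.Agent.H.MP_9e03f2_pr

open MeasureTheory ProbabilityTheory Filter Topology Function Pool.Agent.H.MP_65c995_pr
open scoped ENNReal unitInterval

def Mn (u : ℤ → I) (i : ℤ) : Prop := u i < u (i - 1) ∧ u i ≤ u (i + 1)

lemma Mn_adj {u : ℤ → I} {i : ℤ} (h : Mn u (i - 1)) : ¬ Mn u i := fun h' => by
  have := h.2
  rw [sub_add_cancel] at this
  exact absurd h'.1 (not_lt.2 this)

lemma Mn_congr {u u' : ℤ → I} {i i' : ℤ} (h1 : u (i - 1) = u' (i' - 1)) (h2 : u i = u' i')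
    (h3 : u (i + 1) = u' (i' + 1)) : Mn u i ↔ Mn u' i' := by rw [Mn, Mn, h1, h2, h3]

lemma Mn_meas (i : ℤ) : MeasurableSet {u : ℤ → I | Mn u i} :=
  MeasurableSet.inter (s₁ := {u : ℤ → I | u i < u (i - 1)}) (s₂ := {u : ℤ → I | u i ≤ u (i + 1)})
    (measurableSet_lt (by fun_prop) (by fun_prop)) (measurableSet_le (by fun_prop) (by fun_prop))

lemma upd_l2 {ι E : Type} [DecidableEq ι] [MeasurableSpace E] (π : Measure E) [IsProbabilityMeasure π]
    (i j : ι) {f : (ι → E) → ℝ≥0∞} (hf : Measurable f) :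
    ∫⁻ w, f w ∂(Measure.infinitePi fun _ : ι => π)
      = ∫⁻ w, ∫⁻ z, ∫⁻ y, f (update (update w j z) i y) ∂π ∂π ∂(Measure.infinitePi fun _ : ι => π) :=
  (upd_l π i hf).trans (upd_l π j (Measurable.lintegral_prod_right' (ν := π)
    (hf.comp (measurable_update' (a := i)))))

variable {S : Type} (g0 : I → S) (g1 : S → I → S) (g2 : S × S → I → S)

open Classical in
noncomputable def Zs : ℕ → (ℤ → I) → (ℤ → I) → ℤ → S
  | 0, _, v, i => g0 (v i)
  | n + 1, u, v, i => if Mn u (i - 1) then g0 (v i) else g1 (Zs n u v (i - 1)) (v i)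

lemma exN (u : ℤ → I) (i : ℤ) : ∃ k : ℕ, Mn u (i - 1 - k) ∨ ∀ j : ℕ, ¬ Mn u (i - 1 - j) := by
  by_cases h : ∃ j : ℕ, Mn u (i - 1 - j)
  · exact h.imp fun _ => .inl
  · exact ⟨0, .inr (not_exists.1 h)⟩

open Classical in
noncomputable def Z (u v : ℤ → I) (i : ℤ) : S := Zs g0 g1 (Nat.find (exN u i) + 1) u v i

open Classical in
noncomputable def X (u v : ℤ → I) (i : ℤ) : S :=
  if Mn u i then g2 (Z g0 g1 u v (i - 1), g0 (v (i + 1))) (v i) else Z g0 g1 u v i

lemma Zs_stab (u v : ℤ → I) (k : ℕ) : ∀ (i : ℤ) (n m : ℕ), Mn u (i - 1 - k) → k < n → k < m →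
    Zs g0 g1 n u v i = Zs g0 g1 m u v i := by
  induction k with
  | zero =>
    rintro i (_ | n) (_ | m) h h1 h2 <;> try omega
    simp only [Zs, if_pos (show Mn u (i - 1) by simpa using h)]
  | succ k ih =>
    rintro i (_ | n) (_ | m) h h1 h2 <;> try omega
    simp only [Zs]
    rw [ih (i - 1) n m (by convert h using 1; omega) (by omega) (by omega)]

lemma Z_eq (u v : ℤ → I) (i : ℤ) (k n : ℕ) (h : Mn u (i - 1 - k)) (hn : k < n) :
    Z g0 g1 u v i = Zs g0 g1 n u v i := by
  classical
  have h1 := Nat.find_min' (exN u i) (.inl h)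
  exact Zs_stab g0 g1 u v _ i _ _ ((Nat.find_spec (exN u i)).resolve_right fun e => e k h) (by omega) (by omega)

open Classical in
lemma Z_rec (u v : ℤ → I) {l i : ℤ} (h : Mn u (l - 1)) (hi : l ≤ i) :
    Z g0 g1 u v i = if Mn u (i - 1) then g0 (v i) else g1 (Z g0 g1 u v (i - 1)) (v i) := by
  rw [Z_eq g0 g1 u v i (i - l).toNat ((i - l).toNat + 1) (by convert h using 1; omega) (by omega), Zs]
  split_ifs with h'
  · rfl
  · have : l ≠ i := by rintro rfl; exact h' h
    rw [Z_eq g0 g1 u v (i - 1) (i - 1 - l).toNat (i - l).toNat (by convert h using 1; omega) (by omega)]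

lemma Z_loc {u v u' v' : ℤ → I} {l : ℤ} (h : Mn u (l - 1)) (n : ℕ)
    (hu : ∀ j, l - 2 ≤ j → j ≤ l + n → u j = u' j) (hv : ∀ j, l ≤ j → j ≤ l + n → v j = v' j) :
    Z g0 g1 u v (l + n) = Z g0 g1 u' v' (l + n) := by
  have h' : Mn u' (l - 1) := (Mn_congr (hu _ (by omega) (by omega)) (hu _ (by omega) (by omega))
    (hu _ (by omega) (by omega))).1 h
  induction n with
  | zero =>
    rw [Z_rec g0 g1 u v h (by omega), Z_rec g0 g1 u' v' h' (by omega), if_pos (by simpa using h),
      if_pos (by simpa using h'), hv _ (by omega) le_rfl]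
  | succ n ih =>
    rw [Z_rec g0 g1 u v h (by omega), Z_rec g0 g1 u' v' h' (by omega), hv _ (by omega) le_rfl,
      show l + (n + 1 : ℕ) - 1 = l + n by omega, ih (fun j _ _ => hu j (by omega) (by omega))
        fun j _ _ => hv j (by omega) (by omega), Mn_congr (hu _ (by omega) (by omega)) (hu _ (by omega) (by omega))
        (hu _ (by omega) (by omega))]

lemma X_loc {u v u' v' : ℤ → I} {l i : ℤ} (h : Mn u (l - 1)) (hi : l ≤ i)
    (hu : ∀ j, l - 2 ≤ j → j ≤ i + 1 → u j = u' j) (hv : ∀ j, l ≤ j → j ≤ i → v j = v' j)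
    (hv' : Mn u i → v (i + 1) = v' (i + 1)) : X g0 g1 g2 u v i = X g0 g1 g2 u' v' i := by
  have e : Mn u i ↔ Mn u' i := Mn_congr (hu _ (by omega) (by omega)) (hu _ (by omega) (by omega))
    (hu _ (by omega) (by omega))
  by_cases hm : Mn u i
  · have : l ≠ i := by rintro rfl; exact Mn_adj h hm
    have := Z_loc g0 g1 h (i - 1 - l).toNat (fun j _ _ => hu j (by omega) (by omega))
      fun j _ _ => hv j (by omega) (by omega)
    rw [show l + ((i - 1 - l).toNat : ℕ) = i - 1 by omega] at this
    rw [X, X, if_pos hm, if_pos (e.1 hm), this, hv' hm, hv i hi le_rfl]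
  · have := Z_loc g0 g1 h (i - l).toNat (fun j _ _ => hu j (by omega) (by omega))
      fun j _ _ => hv j (by omega) (by omega)
    rw [show l + ((i - l).toNat : ℕ) = i by omega] at this
    rw [X, X, if_neg hm, if_neg (mt e.2 hm), this]

lemma Mn_sh (u : ℤ → I) (s i : ℤ) : Mn (fun j => u (j + s)) i ↔ Mn u (i + s) :=
  Mn_congr (by congr 1; ring) rfl (by congr 1; ring)

lemma Z_sh (u v : ℤ → I) (s i : ℤ) : Z g0 g1 (fun j => u (j + s)) (fun j => v (j + s)) i = Z g0 g1 u v (i + s) := by
  classical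
  have : ∀ n i, Zs g0 g1 n (fun j => u (j + s)) (fun j => v (j + s)) i = Zs g0 g1 n u v (i + s) := by
    intro n
    induction n with
    | zero => intro i; rfl
    | succ n ih => intro i; simp only [Zs, ih, Mn_sh, sub_add_eq_add_sub]
  rw [Z, Z, this, Nat.find_congr' (hq := exN u (i + s)) (by simp only [Mn_sh, sub_add_eq_add_sub, implies_true])]

lemma X_sh (u v : ℤ → I) (s i : ℤ) :
    X g0 g1 g2 (fun j => u (j + s)) (fun j => v (j + s)) i = X g0 g1 g2 u v (i + s) := by
  classical
  simp only [X, Z_sh, sub_add_eq_add_sub, add_right_comm i 1 s]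
  exact if_congr (Mn_sh u s i) rfl rfl

variable [MeasurableSpace S] {g0 g1 g2} (m0 : Measurable g0) (m1 : Measurable (uncurry g1))
  (m2 : Measurable (uncurry g2))

include m0 m1 in
lemma Z_meas (i : ℤ) : Measurable fun z : (ℤ → I) × (ℤ → I) => Z g0 g1 z.1 z.2 i := by
  classical
  have : ∀ n i, Measurable fun z : (ℤ → I) × (ℤ → I) => Zs g0 g1 n z.1 z.2 i := by
    intro n
    induction n with
    | zero => intro i; exact m0.comp (by fun_prop)
    | succ n ih =>
      intro i
      exact Measurable.ite (measurable_fst (Mn_meas _)) (m0.comp (by fun_prop))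
        (m1.comp ((ih (i - 1)).prodMk (by fun_prop : Measurable fun z : (ℤ → I) × (ℤ → I) => z.2 i)))
  refine Measurable.find (f := fun n (z : (ℤ → I) × (ℤ → I)) => Zs g0 g1 (n + 1) z.1 z.2 i) (fun n => this _ _)
    (p := fun (k : ℕ) z => Mn z.1 (i - 1 - k) ∨ ∀ j : ℕ, ¬ Mn z.1 (i - 1 - j))
    (fun n => measurable_fst ((Mn_meas (i - 1 - n)).union (s₂ := {u : ℤ → I | ∀ j : ℕ, ¬ Mn u (i - 1 - j)}) ?_))
    fun z => exN z.1 i
  rw [Set.setOf_forall]
  exact .iInter fun j => (Mn_meas _).compl

include m0 m1 m2 in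
lemma X_meas : Measurable fun z : (ℤ → I) × (ℤ → I) => X g0 g1 g2 z.1 z.2 := by
  classical
  refine measurable_pi_lambda _ fun i => Measurable.ite (measurable_fst (Mn_meas _)) ?_ (Z_meas m0 m1 i)
  exact m2.comp (((Z_meas m0 m1 (i - 1)).prodMk (m0.comp (by fun_prop))).prodMk
    (by fun_prop : Measurable fun z : (ℤ → I) × (ℤ → I) => z.2 i))

variable (π : Measure S) [IsProbabilityMeasure π] {q : S → S → ℝ≥0∞} (hq : Measurable (uncurry q))
  (e0 : ∀ f : S → ℝ≥0∞, Measurable f → ∫⁻ t, f (g0 t) = ∫⁻ y, f y ∂π)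
  (e1 : ∀ x, ∀ f : S → ℝ≥0∞, Measurable f → ∫⁻ t, f (g1 x t) = ∫⁻ y, f y * q x y ∂π)
  (e2 : ∀ x z, ∀ f : S → ℝ≥0∞, Measurable f → ∫⁻ t, f (g2 (x, z) t) = ∫⁻ y, f y * (q x y * q y z) ∂π)

include m0 m1 m2 hq e0 e1 e2 in
lemma law (u : ℤ → I) (l : ℤ) (hl : Mn u (l - 1)) (n : ℕ) : ¬ Mn u (l + n) →
    ∀ f : (ℤ → S) → ℝ≥0∞, Measurable f → Dep f l n →
    ∫⁻ v, f (X g0 g1 g2 u v) ∂(Measure.infinitePi fun _ : ℤ => volume)
      = ∫⁻ w, f w * D q l n w ∂(Measure.infinitePi fun _ : ℤ => π) := by
  have mX : Measurable (X g0 g1 g2 u) := (X_meas m0 m1 m2).comp measurable_prodMk_left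
  have mu : ∀ j : ℤ, Measurable fun z : (ℤ → S) × S => update z.1 j z.2 := fun j => measurable_update'
  induction n using Nat.strong_induction_on with
  | _ n ih =>
  intro hn f hf hd
  have step : ∀ m : ℕ, n = m + 1 → ¬ Mn u (l + m) → ∫⁻ v, f (X g0 g1 g2 u v) ∂(Measure.infinitePi fun _ : ℤ => volume)
      = ∫⁻ w, f w * D q l n w ∂(Measure.infinitePi fun _ : ℤ => π) := by
    rintro m rfl hm
    have hf' : Measurable fun w : ℤ → S => ∫⁻ y, f (update w (l + m + 1) y) * q (w (l + m)) y ∂π :=
      Measurable.lintegral_prod_right' (f := fun z : (ℤ → S) × S => f (update z.1 (l + m + 1) z.2) * q (z.1 (l + m)) z.2)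
        ((hf.comp (mu _)).mul (hq.comp (by fun_prop : Measurable fun z : (ℤ → S) × S => (z.1 (l + m), z.2))))
    have := ih m (by omega) hm _ hf' fun w w' e => by
      rw [e _ (by omega) le_rfl]
      refine lintegral_congr fun y => congrArg (· * _) (hd _ _ fun i _ _ => ?_)
      by_cases hi : i = l + m + 1
      · simp [hi]
      · rw [update_of_ne hi, update_of_ne hi, e i (by omega) (by omega)]
    refine (upd_l _ (l + m + 1) (hf.comp mX)).trans (Eq.trans (lintegral_congr fun v => ?_) (this.trans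
      (Eq.trans (lintegral_congr fun w => ?_) (upd_l π (l + m + 1) (hf.mul (D_meas hq _ _))).symm)))
    · refine Eq.trans (lintegral_congr fun t => ?_) (e1 (X g0 g1 g2 u v (l + m)) _ (hf.comp (measurable_update _)))
      refine hd _ _ fun i i1 i2 => ?_
      have key : ∀ i, l ≤ i → i ≤ l + m → X g0 g1 g2 u (update v (l + m + 1) t) i = X g0 g1 g2 u v i :=
        fun i i1 i2 => X_loc g0 g1 g2 hl i1 (fun _ _ _ => rfl) (fun j _ _ => update_of_ne (by omega) _ _)
          fun h => update_of_ne (by rintro e; exact hm (by convert h using 1; omega)) _ _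
      by_cases hi : i = l + m + 1
      · subst hi
        rw [update_self, ← key _ (by omega) le_rfl, X, X, if_neg (by simpa [add_assoc] using hn), if_neg hm,
          Z_rec g0 g1 u _ hl i1, add_sub_cancel_right, if_neg hm, update_self]
      · rw [update_of_ne hi, key i i1 (by omega)]
    · refine (lintegral_mul_const _ ((hf.comp (measurable_update _)).mul (hq.comp measurable_prodMk_left))).symm.trans
        (lintegral_congr fun y => ?_)
      simp only [Pi.mul_apply, comp, uncurry]
      rw [D.eq_1 q l (m + 1), Finset.prod_range_succ, ← D, (D_dep q l m).upd w (by omega), update_self,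
        update_of_ne (by omega)]
      ring
  rcases n with _ | n
  · have hc : Measurable fun y : S => f fun _ => y := hf.comp (by fun_prop)
    have e : ∀ w : ℤ → S, f w = f fun _ => w l := fun w => hd _ _ fun i _ _ => by congr 1; omega
    have e' : ∀ v, X g0 g1 g2 u v l = g0 (v l) := fun v => by
      rw [X, if_neg (Mn_adj hl), Z_rec g0 g1 u v hl le_rfl, if_pos hl]
    simp only [D, Finset.range_zero, Finset.prod_empty, mul_one]
    rw [lintegral_congr fun v => (e _).trans (by rw [e']), lintegral_congr e]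
    exact ((measurePreserving_eval_infinitePi _ l).lintegral_comp (hc.comp m0)).trans
      ((e0 _ hc).trans ((measurePreserving_eval_infinitePi (fun _ : ℤ => π) l).lintegral_comp hc).symm)
  by_cases hm : Mn u (l + n)
  swap
  · exact step n rfl hm
  rcases n with _ | m
  · exact absurd (by simpa using hm) (Mn_adj hl)
  have hm' : Mn u (l + m + 1) := by simpa [add_assoc] using hm
  have hm0 : ¬ Mn u (l + m) := fun h => Mn_adj (by simpa using h) hm'
  have g3 : Measurable fun z : ((ℤ → S) × S) × S =>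
      f (update (update z.1.1 (l + m + 2) z.1.2) (l + m + 1) z.2) * (q (z.1.1 (l + m)) z.2 * q z.2 z.1.2) :=
    (hf.comp ((mu _).comp (((mu _).comp measurable_fst).prodMk measurable_snd))).mul
      ((hq.comp (by fun_prop : Measurable fun z : ((ℤ → S) × S) × S => (z.1.1 (l + m), z.2))).mul
        (hq.comp (by fun_prop : Measurable fun z : ((ℤ → S) × S) × S => (z.2, z.1.2))))
  have g4 := Measurable.lintegral_prod_right' (ν := π) g3
  have := ih m (by omega) hm0 _ (Measurable.lintegral_prod_right' (ν := π) g4) fun w w' e => by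
    simp only [e _ (show l ≤ l + m by omega) le_rfl]
    refine lintegral_congr fun z => lintegral_congr fun y => congrArg (· * _) (hd _ _ fun i _ _ => ?_)
    by_cases hi : i = l + m + 1
    · simp [hi]
    by_cases hi' : i = l + m + 2
    · rw [update_of_ne hi, update_of_ne hi, hi', update_self, update_self]
    · simp only [update_of_ne hi, update_of_ne hi', e i (by omega) (by omega)]
  have hD := hf.mul (D_meas hq l (m + 1 + 1))
  refine (upd_l2 _ (l + m + 1) (l + m + 2) (hf.comp mX)).trans (Eq.trans (lintegral_congr fun v => ?_) (this.trans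
    (Eq.trans (lintegral_congr fun w => ?_) (upd_l2 π (l + m + 1) (l + m + 2) hD).symm)))
  · refine Eq.trans (lintegral_congr fun s => ?_) (e0 _ (g4.comp measurable_prodMk_left))
    refine Eq.trans (lintegral_congr fun t => ?_) (e2 (X g0 g1 g2 u v (l + m)) (g0 s) _
      (hf.comp (measurable_update (a := l + m + 1) (update (X g0 g1 g2 u v) (l + m + 2) (g0 s)))))
    refine hd _ _ fun i i1 i2 => ?_
    have key : ∀ i, l ≤ i → i ≤ l + m →
        X g0 g1 g2 u (update (update v (l + m + 2) s) (l + m + 1) t) i = X g0 g1 g2 u v i :=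
      fun i i1 i2 => X_loc g0 g1 g2 hl i1 (fun _ _ _ => rfl)
        (fun j _ _ => by rw [update_of_ne (by omega), update_of_ne (by omega)]) fun h => by
          have : i ≠ l + m := by rintro rfl; exact hm0 h
          rw [update_of_ne (by omega), update_of_ne (by omega)]
    by_cases hi : i = l + m + 1
    · subst hi
      rw [update_self, ← key _ (by omega) le_rfl, X, X, if_pos hm', if_neg hm0, add_sub_cancel_right, update_self,
        update_of_ne (by omega), show l + m + 1 + 1 = l + m + 2 by ring, update_self]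
    by_cases hi' : i = l + m + 2
    · subst hi'
      rw [update_of_ne hi, update_self, X, if_neg (by convert hn using 2; omega), Z_rec g0 g1 u _ hl i1,
        if_pos (by convert hm' using 1; omega), update_of_ne hi, update_self]
    · rw [update_of_ne hi, update_of_ne hi', key i i1 (by omega)]
  · refine (lintegral_mul_const _ (g4.comp measurable_prodMk_left)).symm.trans (lintegral_congr fun z => ?_)
    refine (lintegral_mul_const _ (g3.comp measurable_prodMk_left)).symm.trans (lintegral_congr fun y => ?_)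
    simp only [Pi.mul_apply, comp, uncurry]
    rw [D.eq_1 q l (m + 1 + 1), Finset.prod_range_succ, Finset.prod_range_succ, ← D,
      (D_dep q l m).upd _ (by omega), (D_dep q l m).upd w (by omega), show l + (m + 1 : ℕ) = l + m + 1 by omega,
      update_self, update_of_ne (by omega), update_of_ne (by omega), update_of_ne (by omega),
      show l + m + 1 + 1 = l + m + 2 by ring, update_self]
    ring

end Pool.Agent.H.MP_9e03f2_pr
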