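import Pool.Agent.H.MP_9e03f2_pr.A
import Pool.Agent.H.MP_341645_pr.G

set_option autoImplicit false

namespace Pool.Agent.H.MP_9e03f2_pr

open MeasureTheory ProbabilityTheory Filter Topology Function Pool.Agent.H.MP_65c995_pr Pool.Agent.H.MP_341645_pr
open scoped ENNReal unitInterval

lemma TV (u : ℤ → I) (a : ℤ) (n : ℕ) (h : ∀ i, a < i → i < a + n → ¬ Mn u i) :
    ∑ i ∈ Finset.range n, |(u (a + i + 1) : ℝ) - u (a + i)| ≤ u (a + n) ∨ (u (a + n) < u (a + n - 1) ∧ 0 < n ∧
      ∑ i ∈ Finset.range n, |(u (a + i + 1) : ℝ) - u (a + i)| ≤ 2 - u (a + n)) := by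
  induction n with
  | zero => left; simpa using (u a).2.1
  | succ n ih =>
    have b1 := (u (a + n)).2.2
    rw [Finset.sum_range_succ, show a + (n + 1 : ℕ) = a + n + 1 by omega, add_sub_cancel_right]
    rcases le_or_gt (u (a + n)) (u (a + n + 1)) with h1 | h1
    · have h2 : (u (a + n) : ℝ) ≤ u (a + n + 1) := h1
      rcases ih fun i _ _ => h i (by omega) (by omega) with h3 | h3
      · left; rw [abs_of_nonneg (by linarith)]; linarith
      · exact absurd ⟨h3.1, h1⟩ (h (a + n) (by omega) (by omega))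
    · have h2 : (u (a + n + 1) : ℝ) < u (a + n) := h1
      refine .inr ⟨h1, by omega, ?_⟩
      rw [abs_of_neg (by linarith)]
      rcases ih fun i _ _ => h i (by omega) (by omega) with h3 | h3
      · linarith
      · linarith [h3.2.2]

lemma D_le {S : Type} [MeasurableSpace S] (π : Measure S) [IsProbabilityMeasure π] {q : S → S → ℝ≥0∞}
    (hq : Measurable (uncurry q)) {c : ℝ≥0∞} (h : ∀ x, ∫⁻ y, q x y ∂π ≤ c) (l : ℤ) (n : ℕ) :
    ∫⁻ w, D q l n w ∂(Measure.infinitePi fun _ : ℤ => π) ≤ c ^ n := by
  induction n with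
  | zero => simp [D]
  | succ n ih =>
    have := extR π hq (f := fun _ => 1) measurable_const (l := l) (n := n) (fun _ _ _ => rfl)
      (g := fun _ => 1) measurable_const
    simp only [one_mul] at this
    rw [this, pow_succ']
    refine (lintegral_mono fun w => mul_le_mul_left (h _) _).trans ?_
    rw [lintegral_const_mul _ (D_meas hq l n)]
    exact mul_le_mul_right ih _

lemma tail {θ : ℝ} (hθ : 0 < θ) : ∃ K : ℝ, ∀ (a : ℤ) (n : ℕ), (Measure.infinitePi fun _ : ℤ => (volume : Measure I))
    {u | ∀ i, a < i → i < a + n → ¬ Mn u i} ≤ ENNReal.ofReal (K * θ ^ n) := by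
  let L : ℝ := 8 / θ ^ 2
  have L0 : 0 < L := by positivity
  let q : I → I → ℝ≥0∞ := fun x y => ENNReal.ofReal (Real.exp (-L * |(y : ℝ) - x|))
  have hq : Measurable (uncurry q) := by unfold uncurry; fun_prop
  have hb : ∀ x, ∫⁻ y, q x y ≤ ENNReal.ofReal θ := fun x => by
    have ms : MeasurableSet {y : I | |(y : ℝ) - x| ≤ θ / 4} := measurableSet_le (by fun_prop) measurable_const
    calc ∫⁻ y, q x y ≤ ∫⁻ y, ({y : I | |(y : ℝ) - x| ≤ θ / 4}.indicator 1 y + ENNReal.ofReal (θ / 2)) := by
          refine lintegral_mono fun y => ?_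
          by_cases hy : |(y : ℝ) - x| ≤ θ / 4
          · refine le_add_right ?_
            rw [Set.indicator_of_mem (by exact hy)]
            exact ENNReal.ofReal_le_one.2 (Real.exp_le_one_iff.2 (by have := abs_nonneg ((y : ℝ) - x); nlinarith))
          · refine le_add_left (ENNReal.ofReal_le_ofReal ?_)
            have h1 : 2 / θ ≤ L * |(y : ℝ) - x| := by
              rw [show 2 / θ = L * (θ / 4) by simp only [L]; field_simp; norm_num]
              exact mul_le_mul_of_nonneg_left (not_le.1 hy).le L0.le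
            rw [neg_mul, Real.exp_neg, inv_le_comm₀ (Real.exp_pos _) (by positivity), inv_div]
            linarith [Real.add_one_le_exp (L * |(y : ℝ) - x|)]
      _ ≤ ENNReal.ofReal (θ / 2) + ENNReal.ofReal (θ / 2) := by
          rw [lintegral_add_right _ measurable_const, lintegral_indicator_one ms, lintegral_const, measure_univ,
            mul_one, unitInterval.volume_apply]
          gcongr
          refine (measure_mono (t := Metric.closedBall (x : ℝ) (θ / 4)) ?_).trans_eq ?_
          · rintro _ ⟨y, hy, rfl⟩; exact hy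
          · rw [Real.volume_closedBall]; congr 1; ring
      _ = _ := by rw [← ENNReal.ofReal_add (by positivity) (by positivity), add_halves]
  refine ⟨Real.exp (L * 2), fun a n => ?_⟩
  rw [ENNReal.ofReal_mul (Real.exp_pos _).le, ENNReal.ofReal_pow hθ.le]
  refine le_trans ?_ (mul_le_mul_right (D_le volume hq hb a n) _)
  rw [← lintegral_const_mul _ (D_meas hq a n)]
  refine meas_le_lintegral₀ ((D_meas hq a n).const_mul _).aemeasurable fun u hu => ?_
  rw [D, ← ENNReal.ofReal_prod_of_nonneg fun _ _ => (Real.exp_pos _).le, ← Real.exp_sum, ← Finset.mul_sum,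
    ← ENNReal.ofReal_mul (Real.exp_pos _).le, ← Real.exp_add, ENNReal.one_le_ofReal, Real.one_le_exp_iff]
  have := (u (a + n)).2.1
  have := (u (a + n)).2.2
  rcases TV u a n hu with h | h
  · nlinarith
  · nlinarith [h.2.2]

lemma ae_min : ∀ᵐ u ∂(Measure.infinitePi fun _ : ℤ => (volume : Measure I)), ∀ a : ℤ, ∃ l ≤ a, Mn u (l - 1) := by
  rw [ae_all_iff]
  intro a
  obtain ⟨K, hK⟩ := tail (θ := 1 / 2) (by norm_num)
  have h := ENNReal.tendsto_ofReal ((tendsto_pow_atTop_nhds_zero_of_lt_one (r := (1 / 2 : ℝ)) (by norm_num)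
    (by norm_num)).const_mul K)
  rw [mul_zero, ENNReal.ofReal_zero] at h
  refine nonpos_iff_eq_zero.1 (ge_of_tendsto' h fun n => (measure_mono fun u hu i _ _ hm => ?_).trans (hK (a - n) n))
  exact hu ⟨i + 1, by omega, by simpa using hm⟩

lemma indepW {m k : ℕ} {W : List (Fin m) → ℝ≥0∞} {μ : Measure (ℤ → Fin m)} [IsProbabilityMeasure μ]
    (hμ : ∀ a w, μ (Cy a w) = W w) (hI : ∀ x y, sw k (fun w => W (x ++ (w ++ y))) = W x * W y)
    (A B : Set ℤ) (hAB : ∀ a ∈ A, ∀ b ∈ B, (k : ℤ) < |a - b|) :
    IndepFun (fun (x : ℤ → Fin m) (a : A) => x a) (fun (x : ℤ → Fin m) (b : B) => x b) μ := by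
  have hm : ∀ A, ∀ s ∈ PA m A, MeasurableSet s := by
    rintro A _ ⟨F, c, -, rfl⟩; exact Ev_meas F c fun i _ => measurable_pi_apply i
  have hI : Indep (MeasurableSpace.generateFrom (PA m A)) (MeasurableSpace.generateFrom (PA m B)) μ := by
    refine IndepSets.indep' (hm A) (hm B) (PA_pi A) (PA_pi B) ?_
    rw [IndepSets_iff]
    rintro _ _ ⟨F, c, hF, rfl⟩ ⟨G, d, hG, rfl⟩
    have hd : ∀ a ∈ F, ∀ b ∈ G, (k : ℤ) < |a - b| := fun a ha b hb => hAB a (hF a ha) b (hG b hb)
    rw [Ev_congr (c := c) (d := F.piecewise c d) (fun i hi => by simp [hi]),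
      Ev_congr (c := d) (d := F.piecewise c d) (fun i hi => by
        have : i ∉ F := fun h => by have := hd i h i hi; simp at this; omega
        simp [this]), ← Ev_union]
    exact inter hμ hI _ _ F G le_rfl hd
  have hc : ∀ A : Set ℤ, MeasurableSpace.comap (fun (x : ℤ → Fin m) (a : A) => x a) MeasurableSpace.pi
      ≤ MeasurableSpace.generateFrom (PA m A) := fun A =>
    Measurable.comap_le (@measurable_pi_lambda _ _ _ (MeasurableSpace.generateFrom (PA m A)) _ _
      fun i => @measurable_to_countable' _ _ _ _ (MeasurableSpace.generateFrom (PA m A)) _ fun c =>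
        MeasurableSpace.measurableSet_generateFrom ⟨{i.1}, fun _ => c, by simp, by ext; simp [Ev]⟩)
  rw [IndepFun_iff_Indep]
  exact indep_of_indep_of_le hI (hc A) (hc B)

lemma reidx {V J α β E : Type} [MeasurableSpace E] (ν : Measure E) [IsProbabilityMeasure ν]
    (e : α × β → V × J) (he : Injective e) :
    MeasurePreserving (fun (y : V → J → E) a b => y (e (a, b)).1 (e (a, b)).2)
      (Measure.infinitePi fun _ => Measure.infinitePi fun _ => ν)
      (Measure.infinitePi fun _ => Measure.infinitePi fun _ => ν) := by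
  have h1 : MeasurePreserving _ _ _ := ⟨(MeasurableEquiv.curry V J E).symm.measurable,
    Measure.infinitePi_map_curry_symm fun _ _ => ν⟩
  have h2 : MeasurePreserving _ _ _ := ⟨by fun_prop,
    Measure.map_infinitePi_infinitePi_of_inj (P := fun _ : V × J => ν) he⟩
  have h3 : MeasurePreserving _ _ _ := ⟨(MeasurableEquiv.curry α β E).measurable,
    Measure.infinitePi_map_curry fun _ _ => ν⟩
  exact h3.comp (h2.comp h1)

variable {S : Type} [MeasurableSpace S] (π : Measure S) (q : S → S → ℝ≥0∞) {m : ℕ} (col : S → Fin m)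

def ic (c : Fin m) (y : S) : ℝ≥0∞ := if col y = c then 1 else 0

noncomputable def rr : List (Fin m) → S → ℝ≥0∞
  | [], _ => 1
  | c :: w, s => ∫⁻ y, ic col c y * rr w y * q s y ∂π

variable {q col} [IsProbabilityMeasure π] (hq : Measurable (uncurry q)) (hc : Measurable col)
include hq hc

omit hq in
lemma ind_meas (c : Fin m) : Measurable (ic col c) :=
  Measurable.ite (hc (measurableSet_singleton c)) measurable_const measurable_const

lemma rr_meas (w : List (Fin m)) : Measurable (rr π q col w) := by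
  induction w with
  | nil => exact measurable_const
  | cons c w ih => exact Measurable.lintegral_prod_right ((((ind_meas hc c).mul ih).comp measurable_snd).mul hq)

lemma rr_D (w : List (Fin m)) (l : ℤ) : ∀ (n : ℕ) (f : (ℤ → S) → ℝ≥0∞), Measurable f → Dep f l n →
    ∫⁻ x, f x * (Cy (l + n + 1) w).indicator 1 (fun i => col (x i)) * D q l (n + w.length) x
      ∂(Measure.infinitePi fun _ : ℤ => π)
      = ∫⁻ x, f x * rr π q col w (x (l + n)) * D q l n x ∂(Measure.infinitePi fun _ : ℤ => π) := by
  induction w with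
  | nil => intro n f _ _; simp [Cy, rr]
  | cons c w ih =>
    intro n f hf hd
    have := ih (n + 1) (fun x => f x * ic col c (x (l + n + 1)))
      (hf.mul ((ind_meas hc c).comp (measurable_pi_apply (l + n + 1)))) fun x x' e => by
        simp only
        rw [hd x x' fun i _ _ => e i (by omega) (by omega), e (l + n + 1) (by omega) (by omega)]
    refine Eq.trans (lintegral_congr fun x => ?_) (this.trans (Eq.trans (lintegral_congr fun x => ?_)
      (extR π hq hf hd ((ind_meas hc c).mul (rr_meas π hq hc w)))))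
    · rw [Cy, Set.inter_indicator_one, List.length_cons, show n + (w.length + 1) = n + 1 + w.length by omega,
        show l + (n + 1 : ℕ) + 1 = l + n + 1 + 1 by omega]
      simp [Set.indicator, mul_assoc, ic]
    · simp [mul_assoc, add_assoc]

lemma rr_I (hcol : ∀ y, ∫⁻ x, q x y ∂π = 1) (h2 : ∀ x z, ∫⁻ y, q x y * q y z ∂π = 1) (hr : ∀ x, ∫⁻ y, q x y ∂π = 1)
    (x y : List (Fin m)) (s : S) :
    ∑ c, rr π q col (x ++ c :: y) s = rr π q col x s * ∫⁻ s, rr π q col y s ∂π := by
  have mq : ∀ s, Measurable (q s) := fun s => hq.comp measurable_prodMk_left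
  have mq' : ∀ s, Measurable (q · s) := fun s => hq.comp measurable_prodMk_right
  have mr : ∀ c w s, Measurable fun y => ic col c y * rr π q col w y * q s y := fun c w s =>
    ((ind_meas hc c).mul (rr_meas π hq hc w)).mul (mq s)
  induction x generalizing s with
  | nil =>
    simp only [List.nil_append, rr, one_mul]
    rw [← lintegral_finsetSum _ fun c _ => mr c y s]
    simp only [← Finset.sum_mul, ic, Finset.sum_ite_eq, Finset.mem_univ, if_true, one_mul]
    rcases y with _ | ⟨d, y⟩
    · simp [rr, hr]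
    · have m1 : Measurable fun z : S × S => ic col d z.2 * rr π q col y z.2 * q z.1 z.2 :=
        (((ind_meas hc d).mul (rr_meas π hq hc y)).comp measurable_snd).mul hq
      simp only [rr]
      rw [lintegral_lintegral_swap m1.aemeasurable, lintegral_congr fun z => (lintegral_mul_const _ (mr d y z)).symm,
        lintegral_lintegral_swap (m1.mul ((mq s).comp measurable_fst)).aemeasurable]
      refine lintegral_congr fun z => ?_
      rw [lintegral_const_mul _ (mq' z), hcol, ← h2 s z, ← lintegral_const_mul _ ((mq s).fun_mul (mq' z))]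
      exact lintegral_congr fun _ => by ring
  | cons d x ih =>
    simp only [List.cons_append, rr]
    rw [← lintegral_finsetSum _ fun c _ => mr d _ s, ← lintegral_mul_const _ (mr d x s)]
    refine lintegral_congr fun z => ?_
    simp only [← Finset.sum_mul, ← Finset.mul_sum, ih]
    ring

theorem one [StandardBorelSpace S] (hcol : ∀ y, ∫⁻ x, q x y ∂π = 1) (h2 : ∀ x z, ∫⁻ y, q x y * q y z ∂π = 1)
    (hr : ∀ x, ∫⁻ y, q x y ∂π = 1) (hfin : ∀ x y, q x y ≠ ⊤) (h0 : ∀ x y, col x = col y → q x y = 0) :
    ∃ F : (ℤ → Bool → I) → ℤ → Fin m, Measurable F ∧ (∀ y s i, F (fun j => y (j + s)) i = F y (i + s)) ∧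
      (∀ᵐ y ∂(Measure.infinitePi fun _ => Measure.infinitePi fun _ => volume), ∀ i, F y i ≠ F y (i + 1)) ∧
      (∀ A B : Set ℤ, (∀ a ∈ A, ∀ b ∈ B, 1 < |a - b|) →
        IndepFun (fun (x : ℤ → Fin m) (a : A) => x a) (fun (x : ℤ → Fin m) (b : B) => x b)
          ((Measure.infinitePi fun _ => Measure.infinitePi fun _ => volume).map F)) ∧
      ∀ θ : ℝ, 0 < θ → ∃ K : ℝ, ∀ r : ℕ, (Measure.infinitePi fun _ => Measure.infinitePi fun _ => volume)
        {y | ¬ ∀ y', (∀ j : ℤ, |j| ≤ r → y' j = y j) → F y' 0 = F y 0} ≤ ENNReal.ofReal (K * θ ^ (r - 1)) := by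
  haveI := nonempty_of_isProbabilityMeasure π
  have smp : ∀ {T : Type} [MeasurableSpace T] (p : T → S → ℝ≥0∞), Measurable (uncurry p) → (∀ x y, p x y ≠ ⊤) →
      (∀ x, ∫⁻ y, p x y ∂π = 1) → ∃ g : T → I → S, Measurable (uncurry g) ∧
        ∀ x, ∀ f : S → ℝ≥0∞, Measurable f → ∫⁻ t, f (g x t) = ∫⁻ y, f y * p x y ∂π := by
    intro T _ p hp h1 h2
    haveI : IsMarkovKernel ((Kernel.const T π).withDensity p) := ⟨fun x => ⟨by
      rw [Kernel.withDensity_apply' _ hp]; simpa using h2 x⟩⟩
    obtain ⟨g, hg, e⟩ := ((Kernel.const T π).withDensity p).exists_measurable_map_eq_unitInterval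
    refine ⟨g, hg, fun x f hf => ?_⟩
    rw [← lintegral_map hf (show Measurable (g x) from hg.comp measurable_prodMk_left), e,
      Kernel.withDensity_apply _ hp, lintegral_withDensity_eq_lintegral_mul _
        (show Measurable (p x) from hp.comp measurable_prodMk_left) hf]
    exact lintegral_congr fun _ => mul_comm _ _
  obtain ⟨g0, m0, e0⟩ := π.exists_measurable_map_eq
  obtain ⟨g1, m1, e1⟩ := smp q hq hfin hr
  obtain ⟨g2, m2, e2⟩ := smp (fun (z : S × S) y => q z.1 y * q y z.2)
    ((hq.comp (by fun_prop : Measurable fun z : (S × S) × S => (z.1.1, z.2))).mul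
      (hq.comp (by fun_prop : Measurable fun z : (S × S) × S => (z.2, z.1.2))))
    (fun x y => ENNReal.mul_ne_top (hfin _ _) (hfin _ _)) fun x => h2 _ _
  have mp := reidx (volume : Measure I) (Prod.swap : Bool × ℤ → ℤ × Bool) Prod.swap_injective
  have mX : Measurable fun w : Bool → ℤ → I => X g0 g1 g2 (w false) (w true) :=
    (X_meas m0 m1 m2).comp (by fun_prop : Measurable fun w : Bool → ℤ → I => (w false, w true))
  have mc : Measurable fun (x : ℤ → S) i => col (x i) := by fun_prop
  let F : (ℤ → Bool → I) → ℤ → Fin m := fun y i => col (X g0 g1 g2 (fun j => y j false) (fun j => y j true) i)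
  have mF : Measurable F := mc.comp (mX.comp mp.measurable)
  set P : Measure (ℤ → Bool → I) := Measure.infinitePi fun _ => Measure.infinitePi fun _ => volume
  haveI := Measure.isProbabilityMeasure_map (μ := P) mF.aemeasurable
  have key : ∀ a w, P.map F (Cy a w) = ∫⁻ s, rr π q col w s ∂π := fun a w => by
    have mi : Measurable fun x : ℤ → S => (Cy a w).indicator (1 : (ℤ → Fin m) → ℝ≥0∞) fun i => col (x i) :=
      (measurable_one.indicator (Cy_meas a w)).comp mc
    have hd : Dep (fun x : ℤ → S => (Cy a w).indicator (1 : (ℤ → Fin m) → ℝ≥0∞) fun i => col (x i))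
        (a - 1) w.length := fun x x' e => by
      have : ∀ x x' : ℤ → S, (∀ i, a - 1 ≤ i → i ≤ a - 1 + w.length → x i = x' i) →
          (fun i => col (x i)) ∈ Cy a w → (fun i => col (x' i)) ∈ Cy a w := fun x x' e h =>
        (Cy_iff h _).2 fun i _ _ => by rw [e i (by omega) (by omega)]
      by_cases h : (fun i => col (x i)) ∈ Cy a w
      · simp [h, this x x' e h]
      · simp [h, mt (this x' x fun i h1 h2 => (e i h1 h2).symm) h]
    have e3 := rr_D π hq hc w (a - 1) 0 (fun _ => 1) measurable_const fun _ _ _ => rfl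
    simp only [one_mul, D, Finset.range_zero, Finset.prod_empty, mul_one, Nat.cast_zero, add_zero, zero_add,
      sub_add_cancel] at e3
    rw [← lintegral_indicator_one (Cy_meas a w), lintegral_map (measurable_one.indicator (Cy_meas a w)) mF,
      ← (measurePreserving_eval_infinitePi (fun _ : ℤ => π) (a - 1)).lintegral_comp (rr_meas π hq hc w)]
    refine (mp.lintegral_comp (mi.comp mX)).trans ((upd_l _ true (mi.comp mX)).trans (Eq.trans ?_ e3))
    refine (lintegral_congr_ae ?_).trans ((lintegral_const _).trans (by rw [measure_univ, mul_one]))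
    filter_upwards [(measurePreserving_eval_infinitePi _ false).quasiMeasurePreserving.ae ae_min] with z hz
    obtain ⟨l, hl, hm⟩ := hz (a - 1)
    obtain ⟨k, rfl⟩ : ∃ k : ℕ, l = a - 1 - k := ⟨(a - 1 - l).toNat, by omega⟩
    obtain ⟨b, hb⟩ : ∃ b : ℕ, ¬ Mn (z false) (a - 1 + w.length + b) := by
      by_cases h : Mn (z false) (a - 1 + w.length)
      · exact ⟨1, Mn_adj (by simpa using h)⟩
      · exact ⟨0, by simpa using h⟩
    have := law m0 m1 m2 π hq (fun f hf => by rw [← e0, lintegral_map hf m0]) e1 (fun x z => e2 (x, z)) (z false) _ hm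
      (w.length + b + k) (by rwa [show a - 1 - k + (w.length + b + k : ℕ) = a - 1 + w.length + b by omega])
      _ mi (hd.mono hl (by omega))
    rw [ext π hq hr hcol mi hd] at this
    simpa [D] using this
  refine ⟨F, mF, fun y s i => congrArg col (X_sh g0 g1 g2 (fun j => y j false) (fun j => y j true) s i), ?_,
    indepW (k := 1) key fun x y => ?_, fun θ hθ => ?_⟩
  · refine ae_of_ae_map (p := fun x : ℤ → Fin m => ∀ i, x i ≠ x (i + 1)) mF.aemeasurable ?_
    rw [ae_all_iff]
    intro i
    rw [ae_iff, show {x : ℤ → Fin m | ¬ x i ≠ x (i + 1)} = ⋃ c, Cy i [c, c] by ext x; simp [Cy, eq_comm]]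
    refine measure_iUnion_null fun c => ?_
    rw [key]
    refine (lintegral_congr fun s => (lintegral_congr fun y => ?_).trans lintegral_zero).trans lintegral_zero
    by_cases h : col y = c
    · rw [show rr π q col [c] y = 0 from (lintegral_congr fun z => ?_).trans lintegral_zero, mul_zero, zero_mul]
      by_cases h' : col z = c
      · rw [h0 y z (h.trans h'.symm), mul_zero]
      · simp [ic, h']
    · simp [ic, h]
  · change ∑ c, ∫⁻ s, rr π q col (x ++ c :: y) s ∂π = _
    rw [← lintegral_finsetSum _ fun c _ => rr_meas π hq hc _, ← lintegral_mul_const _ (rr_meas π hq hc _)]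
    exact lintegral_congr (rr_I π hq hc hcol h2 hr x y)
  · obtain ⟨K, hK⟩ := tail hθ
    refine ⟨K, fun r => le_trans ?_ (hK (-r) (r - 1))⟩
    have mp' := (measurePreserving_eval_infinitePi _ false).comp mp
    rw [← mp'.map_eq]
    refine le_trans (measure_mono ?_) (Measure.le_map_apply mp'.measurable.aemeasurable _)
    intro y hy i i1 i2 hm
    refine hy fun y' e => ?_
    have e' : ∀ j : ℤ, -r ≤ j → j ≤ r → y j = y' j := fun j _ _ => (e j (abs_le.2 (by omega))).symm
    exact congrArg col (X_loc g0 g1 g2 (l := i + 1) (by simpa using hm) (by omega)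
      (fun j _ _ => by rw [e' j (by omega) (by omega)]) (fun j _ _ => by rw [e' j (by omega) (by omega)])
      fun _ => by rw [e' _ (by omega) (by omega)]).symm

end Pool.Agent.H.MP_9e03f2_pr
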