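import Pool.Agent.H.MP_9e03f2_pr.B
import Pool.Agent.H.MP_65c995_pr.K

set_option autoImplicit false

namespace Pool.Agent.H.MP_9e03f2_pr

open MeasureTheory ProbabilityTheory Filter Topology Function
open scoped ENNReal unitInterval

lemma indep_mp {α β γ δ : Type} [MeasurableSpace α] [MeasurableSpace β] [MeasurableSpace γ] [MeasurableSpace δ]
    {μ : Measure α} {ν : Measure β} {φ : α → β} (h : MeasurePreserving φ μ ν) {f : β → γ} {g : β → δ}
    (hf : Measurable f) (hg : Measurable g) (hi : IndepFun f g ν) : IndepFun (f ∘ φ) (g ∘ φ) μ := by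
  rw [indepFun_iff_measure_inter_preimage_eq_mul] at hi ⊢
  intro s t hs ht
  rw [Set.preimage_comp, Set.preimage_comp, ← Set.preimage_inter, h.measure_preimage (hf hs).nullMeasurableSet,
    h.measure_preimage (hg ht).nullMeasurableSet, h.measure_preimage ((hf hs).inter (hg ht)).nullMeasurableSet,
    hi s t hs ht]

lemma iIndep_bool {α γ : Type} [MeasurableSpace α] [MeasurableSpace γ] {μ : Measure α} [IsProbabilityMeasure μ]
    {f : Bool → α → γ} (hi : IndepFun (f true) (f false) μ) : iIndepFun f μ := by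
  rw [iIndepFun_iff_measure_inter_preimage_eq_mul]
  intro S s hs
  have : S = ∅ ∨ S = {true} ∨ S = {false} ∨ S = {true, false} := by clear hs; revert S; decide
  rcases this with rfl | rfl | rfl | rfl
  · simp
  · simp
  · simp
  · rw [Finset.set_biInter_insert, Finset.set_biInter_singleton, Finset.prod_pair (by simp)]
    exact indepFun_iff_measure_inter_preimage_eq_mul.1 hi _ _ (hs true (by simp)) (hs false (by simp))

lemma l1_single {d : ℕ} (j : Fin d) (t : ℤ) : ∑ i, |(Pi.single j t : Fin d → ℤ) i| = |t| := by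
  rw [Finset.sum_eq_single j (fun i _ h => by simp [h]) (by simp)]; simp

lemma l1_one {d : ℕ} (w : Fin d → ℤ) (h : ∑ i, |w i| = 1) : ∃ j, w = Pi.single j 1 ∨ -w = Pi.single j 1 := by
  obtain ⟨j, -, hj⟩ := Finset.exists_ne_zero_of_sum_ne_zero (h.trans_ne one_ne_zero)
  rw [← Finset.add_sum_erase _ _ (Finset.mem_univ j)] at h
  have h1 := Finset.sum_nonneg fun i (_ : i ∈ Finset.univ.erase j) => abs_nonneg (w i)
  have h2 := abs_nonneg (w j)
  have h3 := (Finset.sum_eq_zero_iff_of_nonneg fun i (_ : i ∈ Finset.univ.erase j) => abs_nonneg (w i)).1 (by omega)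
  have h4 : ∀ i, i ≠ j → w i = 0 := fun i hi => abs_eq_zero.1 (h3 i (by simp [hi]))
  refine ⟨j, ((abs_eq zero_le_one).1 (show |w j| = 1 by omega)).imp (fun e => ?_) fun e => ?_⟩ <;> funext i <;>
    by_cases hi : i = j <;> simp [hi, e, h4]

theorem one64 : ∃ F : (ℤ → Bool → I) → ℤ → Fin 64, Measurable F ∧ (∀ y s i, F (fun j => y (j + s)) i = F y (i + s)) ∧
      (∀ᵐ y ∂(Measure.infinitePi fun _ => Measure.infinitePi fun _ => volume), ∀ i, F y i ≠ F y (i + 1)) ∧
      (∀ A B : Set ℤ, (∀ a ∈ A, ∀ b ∈ B, 1 < |a - b|) →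
        IndepFun (fun (x : ℤ → Fin 64) (a : A) => x a) (fun (x : ℤ → Fin 64) (b : B) => x b)
          ((Measure.infinitePi fun _ => Measure.infinitePi fun _ => volume).map F)) ∧
      ∀ θ : ℝ, 0 < θ → ∃ K : ℝ, ∀ r : ℕ, (Measure.infinitePi fun _ => Measure.infinitePi fun _ => volume)
        {y | ¬ ∀ y', (∀ j : ℤ, |j| ≤ r → y' j = y j) → F y' 0 = F y 0} ≤ ENNReal.ofReal (K * θ ^ (r - 1)) := by
  open Pool.Agent.H.MP_65c995_pr in
  haveI : BorelSpace (S × S) := Prod.borelSpace
  have hP := (cP abs_one).measurable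
  have hi : ∀ {f : S → ℝ}, Continuous f → (∀ y, 0 ≤ f y) → ∫ y, f y ∂π = 1 →
      ∫⁻ y, ENNReal.ofReal (f y) ∂π = 1 := fun hf h0 h1 => by
    rw [← ofReal_integral_eq_lintegral_ofReal (ci hf) (.of_forall h0), h1, ENNReal.ofReal_one]
  let e : F ≃ Fin 64 := Fintype.equivFinOfCardEq (by simp)
  exact one π (q := fun x y => ENNReal.ofReal (P 1 x y)) (col := fun s => e (s 0))
    (ENNReal.measurable_ofReal.comp hP) ((measurable_of_finite e).comp (measurable_pi_apply 0))
    (fun y => by simp only [P_symm _ y]; exact hi (cr (cP hm) y) (P_ge hm y) (P1 hm y))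
    (fun x z => by
      simp only [P_symm _ z, ← ENNReal.ofReal_mul (P_ge abs_one x _)]
      exact hi ((cr (cP abs_one) x).mul (cr (cP hm) z))
        (fun y => mul_nonneg (P_ge abs_one x y) (P_ge hm z y)) (PP x z))
    (fun x => hi (cr (cP abs_one) x) (P_ge abs_one x) (P1 abs_one x)) (fun _ _ => ENNReal.ofReal_ne_top)
    fun x y h => by rw [P_zero x y (e.injective h), ENNReal.ofReal_zero]

end Pool.Agent.H.MP_9e03f2_pr
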